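import Mathlib
import Pool.Agent.H577R3.Defs2
import Pool.Agent.H577R3.Bi

set_option autoImplicit false

/-! Definitions for the random metabelian groups. -/

namespace Pool.Agent.H577R3.RM

open Pool.Agent.Helper777.Prof Pool.Agent.H577R3

/-- letters `a_i` (`(i, true)`) and `a_i⁻¹` (`(i, false)`) -/
abbrev Lt (n : ℕ) := Fin n × Bool

/-- freely reduced words of length `ℓ` -/
def IsRed {n ℓ : ℕ} (w : Fin ℓ → Lt n) : Prop :=
  ∀ i j : Fin ℓ, i.1 + 1 = j.1 → (w i).1 = (w j).1 → (w i).2 = (w j).2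

/-- the freely reduced words of length `ℓ` -/
abbrev RW (n ℓ : ℕ) := {w : Fin ℓ → Lt n // IsRed w}

/-- the exponent vector of a letter -/
def vec {n : ℕ} (a : Lt n) : Fin n → ℤ := if a.2 then Pi.single a.1 1 else -Pi.single a.1 1

/-- the exponent vector of the prefix of length `j` -/
def pos {n ℓ : ℕ} (w : Fin ℓ → Lt n) (j : ℕ) : Fin n → ℤ :=
  ∑ i : Fin ℓ, if i.1 < j then vec (w i) else 0

/-- the word `c` occurs in `w` at the place `s` -/
def At {n ℓ b : ℕ} (w : Fin ℓ → Lt n) (s : ℕ) (c : Fin b → Lt n) : Prop :=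
  ∀ i : Fin b, ∃ h : s + i.1 < ℓ, w ⟨s + i.1, h⟩ = c i

/-- `k k k' k'` -/
def c0 {n : ℕ} (k k' : Fin n) : Fin 4 → Lt n := ![(k, true), (k, true), (k', true), (k', true)]

/-- `k k' k k'` -/
def c1 {n : ℕ} (k k' : Fin n) : Fin 4 → Lt n := ![(k, true), (k', true), (k, true), (k', true)]

/-- the window number `t` (places `6 t + 1, …, 6 t + 4`) contains `k k k' k'` or `k k' k k'` -/
def Win {n ℓ : ℕ} (k k' : Fin n) (w : Fin ℓ → Lt n) (t : ℕ) : Prop :=
  At w (6 * t + 1) (c0 k k') ∨ At w (6 * t + 1) (c1 k k')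

/-- the set of these windows -/
noncomputable def TW {n ℓ : ℕ} (k k' : Fin n) (w : Fin ℓ → Lt n) : Finset ℕ := by
  classical exact (Finset.range ℓ).filter (Win k k' w)

/-- put `k k' k k'` in all the windows `t ∈ S` -/
def put {n ℓ : ℕ} (k k' : Fin n) (S : Finset ℕ) (w : Fin ℓ → Lt n) : Fin ℓ → Lt n := fun i =>
  if h : i.1 / 6 ∈ S ∧ 1 ≤ i.1 % 6 ∧ i.1 % 6 ≤ 4 then c1 k k' ⟨i.1 % 6 - 1, by omega⟩ else w i

/-- among `L` consecutive windows there is one of the type `k, k'` -/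
def C0 {n ℓ : ℕ} (L : ℕ) (w : Fin ℓ → Lt n) : Prop :=
  ∀ k k' : Fin n, k ≠ k' → ∀ t0 : ℕ, (t0 + L) * 6 ≤ ℓ →
    ∃ t, t0 ≤ t ∧ t < t0 + L ∧ Win k k' w t

/-- there are blocks of length `b` with large displacement in all orthants -/
def C1 {n ℓ : ℕ} (b W g : ℕ) (w : Fin ℓ → Lt n) : Prop :=
  ∀ (i : Fin n) (η : Fin n → ℤ), (∀ l, η l = 1 ∨ η l = -1) →
    ∃ s : ℕ, s + b + g ≤ ℓ ∧ (∀ l, 0 ≤ η l * (pos w (s + b) l - pos w s l)) ∧
      (W : ℤ) ≤ η i * (pos w (s + b) i - pos w s i)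

/-- Laurent polynomials in `n` variables -/
abbrev Lam (n : ℕ) := MonoidAlgebra ℤ (Zm n)

/-- the monomial `u` -/
noncomputable abbrev X {n : ℕ} (u : Fin n → ℤ) : Lam n := MonoidAlgebra.of ℤ (Zm n) (Multiplicative.ofAdd u)

/-- the value of the monomial `u` at the point `θ` -/
def mon {K : Type} [Field K] {n : ℕ} (θ : Fin n → Kˣ) : Zm n →* Kˣ where
  toFun u := ∏ l, θ l ^ (Multiplicative.toAdd u l)
  map_one' := by simp
  map_mul' u v := by
    rw [← Finset.prod_mul_distrib]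
    refine Finset.prod_congr rfl (fun l _ => ?_)
    rw [toAdd_mul, Pi.add_apply, zpow_add]

/-- evaluation of Laurent polynomials -/
noncomputable def evl {K : Type} [Field K] {n : ℕ} (θ : Fin n → Kˣ) : Lam n →+* K :=
  ((MonoidAlgebra.lift ℤ K (Zm n) ((Units.coeHom K).comp (mon θ)) : Lam n →ₐ[ℤ] K) : Lam n →+* K)

/-- the value at `θ` of the derivation with the values `z` on the generators -/
noncomputable def der {K : Type} [Field K] {n ℓ : ℕ} (θ : Fin n → Kˣ) (z : Fin n → K)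
    (w : Fin ℓ → Lt n) : K :=
  ∑ i : Fin ℓ, (mon θ (Multiplicative.ofAdd (pos w i.1)) : K) *
    (if (w i).2 then z (w i).1 else -(((θ (w i).1)⁻¹ : Kˣ) : K) * z (w i).1)

/-- Fox derivatives of words -/
noncomputable def fox {n ℓ : ℕ} (w : Fin ℓ → Lt n) (l : Fin n) : Lam n :=
  ∑ i : Fin ℓ, if (w i).1 = l then (if (w i).2 then X (pos w i.1) else - X (pos w (i.1 + 1))) else 0

/-- evaluation of polynomials in the variables from `C` -/
noncomputable def evC {K : Type} [Field K] {n : ℕ} (C : Finset (Fin n)) (θ : Fin n → Kˣ) :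
    MvPolynomial {c // c ∈ C} ℤ →+* K :=
  MvPolynomial.eval₂Hom (Int.castRingHom K) (fun c => ((θ c.1 : Kˣ) : K))

/-- the coordinates from `C` are algebraically independent over `ℤ` -/
def Gen0 {K : Type} [Field K] {n : ℕ} (C : Finset (Fin n)) (θ : Fin n → Kˣ) : Prop :=
  RingHom.ker (evC C θ) = ⊥

/-- `θ` lies over a prime of height one -/
def Hgt1 {K : Type} [Field K] {n : ℕ} (C : Finset (Fin n)) (θ : Fin n → Kˣ) : Prop :=
  ∃ f, Irreducible f ∧ RingHom.ker (evC C θ) = Ideal.span {f}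

/-- size of a Laurent polynomial -/
def Sz {n : ℕ} (E : ℕ) (h : Lam n) : Prop :=
  ∃ (N : ℕ) (u : Fin N → Fin n → ℤ) (c : Fin N → ℤ), N ≤ E ∧ (∀ i, |c i| ≤ E) ∧
    (∀ i l, |u i l| ≤ E) ∧ h = ∑ i, c i • X (u i)

/-- the relations `θ_i ^ q = θ_C ^ (w i)` for `i ∉ C` -/
def Rad {K : Type} [Field K] {n : ℕ} (C : Finset (Fin n)) (q : ℕ) (w : Fin n → Fin n → ℤ)
    (θ : Fin n → Kˣ) : Prop :=
  ∀ i, i ∉ C → θ i ^ q = ∏ c ∈ C, θ c ^ w i c

/-- the free group -/
abbrev FG (n : ℕ) := FreeGroup (Fin n)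

/-- the word as an element of the free group -/
def wd {n ℓ : ℕ} (w : Fin ℓ → Lt n) : FG n := FreeGroup.mk (List.ofFn w)

/-- abelianisation -/
def abF (n : ℕ) : FG n →* Zm n := FreeGroup.lift zb

/-- the exponent vector of an element of the free group -/
def abv {n : ℕ} (g : FG n) : Fin n → ℤ := Multiplicative.toAdd (abF n g)

/-- Fox derivative of elements of the free group, in the Laurent polynomials -/
noncomputable def foxF {n : ℕ} (g : FG n) (l : Fin n) : Lam n := (mag (abF n) g).v l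

/-- the kernel of the metabelian presentation -/
def relN {n m : ℕ} (r : Fin m → FG n) : Subgroup (FG n) :=
  Subgroup.normalClosure (Set.range r) ⊔ derivedSeries (FG n) 2

instance {n m : ℕ} (r : Fin m → FG n) : (relN r).Normal := by
  unfold relN
  infer_instance

/-- the metabelian group with the relators `r` -/
abbrev MG {n m : ℕ} (r : Fin m → FG n) := FG n ⧸ relN r

/-- the abelianisation of the metabelian group -/
def relA {n m : ℕ} (r : Fin m → FG n) : Subgroup (FG n) :=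
  Subgroup.normalClosure (Set.range r) ⊔ derivedSeries (FG n) 1

instance {n m : ℕ} (r : Fin m → FG n) : (relA r).Normal := by
  unfold relA
  infer_instance

/-- exponent vectors of the relators and the basis vectors from `C` form a basis of `ℚ ^ n` -/
def IsC {n m : ℕ} (v : Fin m → Fin n → ℤ) (C : Finset (Fin n)) : Prop :=
  m + C.card = n ∧
    LinearIndependent ℤ (Sum.elim v (fun c : {c // c ∈ C} => (Pi.single c.1 1 : Fin n → ℤ)))

/-- the rank condition -/
def RankOK {n m : ℕ} (r : Fin m → FG n) (C : Finset (Fin n)) : Prop :=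
  ∀ (K : Type) [Field K] (θ : Fin n → Kˣ), (∀ j, mon θ (abF n (r j)) = 1) → Hgt1 C θ →
    LinearIndependent K (fun j => fun l => evl θ (foxF (r j) l))

end Pool.Agent.H577R3.RM
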