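import Mathlib
import Pool.Agent.H577R3.RM.Defs
import Pool.Agent.H577R3.Defs

set_option autoImplicit false

/-! Statements of the steps for the random metabelian groups. -/

namespace Pool.Agent.H577R3.RM

open Pool.Agent.Helper777.Prof Pool.Agent.H577R3 Filter Topology

/-! ### Words -/

/-- window lemma -/
def TaskWL : Prop := ∀ (n b ℓ κ : ℕ) (G : Finset (Fin b → Lt n)) (H : Finset ℕ),
  2 ≤ n → 1 ≤ b → (∀ c ∈ G, IsRed c) → Nat.card (RW n b) ≤ κ * G.card →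
  (∀ t ∈ H, (t + 1) * (b + 2) ≤ ℓ) →
  Nat.card {w : RW n ℓ // ∀ t ∈ H, ∀ c ∈ G, ¬ At w.1 (t * (b + 2) + 1) c} * (4 * κ) ^ H.card
    ≤ (4 * κ - 1) ^ H.card * Nat.card (RW n ℓ)

/-- anticoncentration of linear forms of the exponent vector -/
def TaskAC1 : Prop := ∀ n : ℕ, 2 ≤ n → ∃ C : ℕ, ∀ (Q ℓ W : ℕ) (i : Fin n) (κ : Fin n → ℤ),
  1 ≤ Q → C * Q ^ 3 ≤ ℓ → κ i ≠ 0 →
  Q * Nat.card {w : RW n ℓ // |∑ l, κ l * pos w.1 ℓ l| < (W : ℤ) * |κ i|} ≤ W * Nat.card (RW n ℓ)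

/-- block lemma -/
def TaskBL : Prop := ∀ n : ℕ, 2 ≤ n → ∃ C p : ℕ, 1 ≤ p ∧ ∀ W b B g ℓ : ℕ, 1 ≤ W → C * W ^ 3 ≤ b →
  B * (b + 2) + g ≤ ℓ →
  Nat.card {w : RW n ℓ // ¬ C1 b W g w.1} * p ^ B ≤ C * (p - 1) ^ B * Nat.card (RW n ℓ)

/-- windows are frequent -/
def TaskC0L : Prop := ∀ n : ℕ, 2 ≤ n → ∃ C p : ℕ, 1 ≤ p ∧ ∀ L ℓ : ℕ,
  Nat.card {w : RW n ℓ // ¬ C0 L w.1} * p ^ L ≤ C * (ℓ + 1) * (p - 1) ^ L * Nat.card (RW n ℓ)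

/-- for every nontrivial order-valued character there are `S` windows with different values -/
def Spr {n ℓ : ℕ} (S : ℕ) (k k' : Fin n) (w : Fin ℓ → Lt n) : Prop :=
  ∀ (Γ : Type) [CommGroup Γ] [LinearOrder Γ] [IsOrderedMonoid Γ] (lam : Zm n →* Γ),
    (∃ u, lam u ≠ 1) → ∃ T : Finset ℕ, T.card = S ∧ (∀ t ∈ T, Win k k' w t) ∧
      Set.InjOn (fun t => lam (Multiplicative.ofAdd (pos w (6 * t + 1)))) (T : Set ℕ)

def TaskDET : Prop := ∀ (n ℓ L S b : ℕ) (w : Fin ℓ → Lt n), 1 ≤ L → 1 ≤ S → C0 L w →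
  C1 b (S * (12 * L + 14)) (6 * L + 12) w → ∀ k k' : Fin n, k ≠ k' → Spr S k k' w

/-- most words have many windows with different values -/
def TaskSPR : Prop := ∀ n : ℕ, 2 ≤ n → ∃ S0 : ℕ → ℕ,
  (∀ D : ℕ, Tendsto (fun ℓ : ℕ => ((ℓ : ℝ) + 1) ^ D / 2 ^ (S0 ℓ)) atTop (𝓝 0)) ∧
  Tendsto (fun ℓ : ℕ => (Nat.card {w : RW n ℓ // ¬ ∀ k k' : Fin n, k ≠ k' → Spr (S0 ℓ) k k' w.1} : ℝ) /
    Nat.card (RW n ℓ)) atTop (𝓝 0)

/-- linear independence of the exponent vectors -/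
def TaskLIN : Prop := ∀ (n m : ℕ), m + 2 ≤ n → ∀ i : Fin n,
  Tendsto (fun ℓ : ℕ => (Nat.card {r : Fin m → RW n ℓ // ¬ LinearIndependent ℤ
    (Sum.elim (fun j => pos (r j).1 ℓ) (fun _ : Unit => (Pi.single i 1 : Fin n → ℤ)))} : ℝ) /
    Nat.card (Fin m → RW n ℓ)) atTop (𝓝 0)

def TaskEXC : Prop := ∀ (n m : ℕ) (v : Fin m → Fin n → ℤ), LinearIndependent ℤ v → ∃ C, IsC v C

/-! ### The switching -/

/-- some coordinate is transcendental over the prime field -/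
def Trs {K : Type} [Field K] {n : ℕ} (θ : Fin n → Kˣ) : Prop :=
  ∃ c : Fin n, ∀ f : Polynomial ℤ, Polynomial.aeval ((θ c : Kˣ) : K) f = 0 →
    ∀ k, ((f.coeff k : ℤ) : K) = 0

def TaskVAL : Prop := ∀ (n : ℕ) (K : Type) [Field K] (θ : Fin n → Kˣ), Trs θ →
  ∃ (Γ : Type) (_ : CommGroup Γ) (_ : LinearOrder Γ) (_ : IsOrderedMonoid Γ) (lam : Zm n →* Γ),
    (∃ u, lam u ≠ 1) ∧ ∀ (s : Finset ℕ) (u : ℕ → Zm n) (ε : ℕ → ℤ),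
      (∀ t ∈ s, ε t = 1 ∨ ε t = -1 ∨ ε t = 0) → Set.InjOn (fun t => lam (u t)) (s : Set ℕ) →
      ∑ t ∈ s, (ε t : K) * (mon θ (u t) : K) = 0 → ∀ t ∈ s, ε t = 0

def TaskFX : Prop := ∀ (n ℓ : ℕ) (k k' : Fin n) (w : Fin ℓ → Lt n) (S : Finset ℕ), k ≠ k' →
  (∀ t, ¬ At w (6 * t + 1) (c1 k k')) → S ⊆ TW k k' w →
  (IsRed w → IsRed (put k k' S w)) ∧
  (∀ t, Win k k' (put k k' S w) t ↔ Win k k' w t) ∧
  (∀ t, pos (put k k' S w) (6 * t + 1) = pos w (6 * t + 1)) ∧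
  pos (put k k' S w) ℓ = pos w ℓ ∧
  (∀ l, l ≠ k → l ≠ k' → fox (put k k' S w) l = fox w l) ∧
  ∀ (K : Type) [Field K] (θ : Fin n → Kˣ) (z : Fin n → K),
    der θ z (put k k' S w) = der θ z w +
      (θ k : K) * (((θ k' : K) - 1) * z k - ((θ k : K) - 1) * z k') *
      ∑ t ∈ S, (mon θ (Multiplicative.ofAdd (pos w (6 * t + 1))) : K)

def TaskFXB : Prop := ∀ (n ℓ : ℕ) (k k' : Fin n) (w : Fin ℓ → Lt n) (T : Finset ℕ)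
  (K : Type) [Field K] (θ : Fin n → Kˣ) (z : Fin n → K), k ≠ k' →
  (∀ t, ¬ At w (6 * t + 1) (c1 k k')) → T ⊆ TW k k' w →
  ((θ k' : K) - 1) * z k - ((θ k : K) - 1) * z k' ≠ 0 →
  (∀ ε : ℕ → ℤ, (∀ t ∈ T, ε t = 1 ∨ ε t = -1 ∨ ε t = 0) →
    ∑ t ∈ T, (ε t : K) * (mon θ (Multiplicative.ofAdd (pos w (6 * t + 1))) : K) = 0 →
    ∀ t ∈ T, ε t = 0) →
  Nat.card {S : Finset ℕ // S ⊆ TW k k' w ∧ der θ z (put k k' S w) = 0} * 2 ^ T.card ≤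
    2 ^ (TW k k' w).card

/-- averaging over the switchings of one word -/
def TaskKEYP : Prop := ∀ (n ℓ m : ℕ) (j : Fin m) (k k' : Fin n)
  (Bad : (Fin m → Fin ℓ → Lt n) → Prop) (D N : ℕ), k ≠ k' →
  (∀ r : Fin m → RW n ℓ, (∀ t, ¬ At (r j).1 (6 * t + 1) (c1 k k')) →
    Nat.card {S : Finset ℕ // S ⊆ TW k k' (r j).1 ∧
      Bad (Function.update (fun l => (r l).1) j (put k k' S (r j).1))} * D ≤
      N * 2 ^ (TW k k' (r j).1).card) →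
  Nat.card {r : Fin m → RW n ℓ // Bad (fun l => (r l).1)} * D ≤ N * Nat.card (Fin m → RW n ℓ)

def TaskFOXW : Prop := ∀ (n ℓ : ℕ) (w : Fin ℓ → Lt n),
  (∀ l, foxF (wd w) l = fox w l) ∧ abF n (wd w) = Multiplicative.ofAdd (pos w ℓ) ∧
  (∀ (K : Type) [Field K] (θ : Fin n → Kˣ) (z : Fin n → K),
    der θ z w = ∑ l, z l * evl θ (fox w l)) ∧ ∀ l, |pos w ℓ l| ≤ ℓ

/-- the rows number `l < j`, restricted to the columns from `I`, are linearly independent at `θ` -/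
def Ind {n ℓ m : ℕ} {K : Type} [Field K] (r : Fin m → Fin ℓ → Lt n) (θ : Fin n → Kˣ) (j : ℕ)
    (I : Finset (Fin n)) : Prop :=
  LinearIndependent K (fun (l : {l : Fin m // l.1 < j}) (x : {x // x ∈ I}) =>
    evl θ (fox (r l.1) x.1))

def TaskMIN : Prop := ∀ (K : Type) [Field K] (n m j : ℕ) (R : Fin m → Fin n → K)
  (I : Finset (Fin n)),
  (LinearIndependent K (fun (l : {l : Fin m // l.1 < j}) (x : {x // x ∈ I}) => R l.1 x.1) ↔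
    ∃ a : {l : Fin m // l.1 < j} → Fin n, (∀ l, a l ∈ I) ∧
      Matrix.det (Matrix.of fun l l' : {l : Fin m // l.1 < j} => R l.1 (a l')) ≠ 0)

def TaskSTEP : Prop := ∀ (n ℓ m S0 : ℕ) (k k' : Fin n) (r : Fin m → Fin ℓ → Lt n) (j : Fin m)
  (I : Finset (Fin n)) (TT : Finset (Ideal (Lam n)))
  (P : ∀ (K : Type) [Field K], (Fin n → Kˣ) → Prop),
  k ≠ k' → (∀ t, ¬ At (r j) (6 * t + 1) (c1 k k')) → Spr S0 k k' (r j) →
  (∀ (K : Type) [Field K] (θ : Fin n → Kˣ), P K θ → RingHom.ker (evl θ) ∈ TT ∧ Trs θ ∧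
    Ind r θ j.1 I ∧
    ∃ z : Fin n → K, (∀ x, x ∉ I → z x = 0) ∧
      (∀ l : Fin m, l.1 < j.1 → ∑ x, z x * evl θ (fox (r l) x) = 0) ∧
      ((θ k' : K) - 1) * z k - ((θ k : K) - 1) * z k' ≠ 0) →
  Nat.card {S : Finset ℕ // S ⊆ TW k k' (r j) ∧ ∃ (K : Type) (_ : Field K) (θ : Fin n → Kˣ),
    P K θ ∧ ¬ Ind (Function.update r j (put k k' S (r j))) θ (j.1 + 1) I} * 2 ^ S0 ≤
    TT.card * 2 ^ (TW k k' (r j)).card

/-! ### Counting primes -/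

/-- the bound for sizes -/
def EE (n ℓ : ℕ) : ℕ := (n * (ℓ + 1) + 2) ^ (n + 1)

def TaskRAD : Prop := ∀ (n m ℓ : ℕ) (v : Fin m → Fin n → ℤ) (C : Finset (Fin n)), IsC v C →
  (∀ j l, |v j l| ≤ (ℓ : ℤ)) → ∃ (q : ℕ) (w : Fin n → Fin n → ℤ), 1 ≤ q ∧ q ≤ EE n ℓ ∧
    (∀ i c, |w i c| ≤ (EE n ℓ : ℤ)) ∧
    ∀ (K : Type) [Field K] (θ : Fin n → Kˣ), (∀ j, mon θ (Multiplicative.ofAdd (v j)) = 1) →
      Rad C q w θ

def TaskSZ : Prop := ∀ (n ℓ m j : ℕ) (r : Fin m → Fin ℓ → Lt n)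
  (a : {l : Fin m // l.1 < j} → Fin n), m ≤ n →
  Sz (EE n ℓ) (Matrix.det (Matrix.of fun l l' : {l : Fin m // l.1 < j} => fox (r l.1) (a l')))

def TaskCT : Prop := ∀ (n : ℕ) (C : Finset (Fin n)) (q : ℕ) (w : Fin n → Fin n → ℤ)
  (p : Ideal (MvPolynomial {c // c ∈ C} ℤ)), 1 ≤ q →
  ∃ TT : Finset (Ideal (Lam n)), TT.card ≤ q ^ n ∧
    ∀ (K : Type) [Field K] (θ : Fin n → Kˣ), Rad C q w θ → RingHom.ker (evC C θ) = p →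
      RingHom.ker (evl θ) ∈ TT

def TaskCCa : Prop := ∀ n : ℕ, ∃ D : ℕ, ∀ (C : Finset (Fin n)) (E q : ℕ)
  (w : Fin n → Fin n → ℤ) (ι : Type) [Fintype ι] (h : ι → Lam n),
  2 ≤ E → 1 ≤ q → q ≤ E → Fintype.card ι ≤ n ^ n + n →
  (∀ (K : Type) [Field K] (θ : Fin n → Kˣ), Rad C q w θ → Gen0 C θ → ∃ a, evl θ (h a) ≠ 0) →
  ∃ c : ι → ℤ, (∀ a, |c a| ≤ (E : ℤ) ^ D) ∧
    ∀ (K : Type) [Field K] (θ : Fin n → Kˣ), Rad C q w θ → Gen0 C θ →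
      evl θ (∑ a, c a • h a) ≠ 0

def TaskCCb : Prop := ∀ n : ℕ, ∃ D : ℕ, ∀ (C : Finset (Fin n)) (E q : ℕ)
  (w : Fin n → Fin n → ℤ) (h : Lam n),
  2 ≤ E → 1 ≤ q → q ≤ E → (∀ i c, |w i c| ≤ (E : ℤ)) → Sz E h →
  (∀ (K : Type) [Field K] (θ : Fin n → Kˣ), Rad C q w θ → Gen0 C θ → evl θ h ≠ 0) →
  ∃ P : MvPolynomial {c // c ∈ C} ℤ, P ≠ 0 ∧ P.totalDegree ≤ E ^ D ∧
    (∀ u, |P.coeff u| ≤ (2 : ℤ) ^ (E ^ D)) ∧
    ∀ (K : Type) [Field K] (θ : Fin n → Kˣ), Rad C q w θ → evl θ h = 0 → evC C θ P = 0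

def TaskCCc : Prop := ∀ (σ : Type) [Finite σ] (P : MvPolynomial σ ℤ) (d e : ℕ), P ≠ 0 →
  P.totalDegree ≤ d → (∀ u, |P.coeff u| ≤ (2 : ℤ) ^ e) →
  ∃ SS : Finset (Ideal (MvPolynomial σ ℤ)), SS.card ≤ d + e ∧
    ∀ f : MvPolynomial σ ℤ, Irreducible f → f ∣ P → Ideal.span {f} ∈ SS

def TaskCC : Prop := ∀ n : ℕ, ∃ D : ℕ, ∀ (C : Finset (Fin n)) (E q : ℕ)
  (w : Fin n → Fin n → ℤ) (ι : Type) [Fintype ι] (h : ι → Lam n),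
  2 ≤ E → 1 ≤ q → q ≤ E → (∀ i c, |w i c| ≤ (E : ℤ)) → Fintype.card ι ≤ n ^ n + n →
  (∀ a, Sz E (h a)) →
  (∀ (K : Type) [Field K] (θ : Fin n → Kˣ), Rad C q w θ → Gen0 C θ → ∃ a, evl θ (h a) ≠ 0) →
  ∃ SS : Finset (Ideal (MvPolynomial {c // c ∈ C} ℤ)), SS.card ≤ E ^ D ∧
    ∀ (K : Type) [Field K] (θ : Fin n → Kˣ), Rad C q w θ → Hgt1 C θ → (∀ a, evl θ (h a) = 0) →
      RingHom.ker (evC C θ) ∈ SS

/-! ### Small linear algebra -/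

def TaskTR : Prop := ∀ (n : ℕ) (C : Finset (Fin n)) (K : Type) [Field K] (θ : Fin n → Kˣ),
  (2 ≤ C.card → Hgt1 C θ → Trs θ) ∧ (1 ≤ C.card → Gen0 C θ → Trs θ)

def TaskNE1 : Prop := ∀ (n m : ℕ) (v : Fin m → Fin n → ℤ) (C : Finset (Fin n)) (i : Fin n)
  (K : Type) [Field K] (θ : Fin n → Kˣ), IsC v C →
  LinearIndependent ℤ (Sum.elim v (fun _ : Unit => (Pi.single i 1 : Fin n → ℤ))) →
  (∀ j, mon θ (Multiplicative.ofAdd (v j)) = 1) → Gen0 C θ → θ i ≠ 1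

def TaskPAIR : Prop := ∀ (K : Type) [Field K] (n m j : ℕ) (R : Fin m → Fin n → K),
  (∀ y : Fin n → K, y ≠ 0 → j + 2 ≤ n → ∃ z : Fin n → K,
    (∀ l : Fin m, l.1 < j → ∑ x, z x * R l x = 0) ∧
    ∃ i i' : Fin n, i ≠ i' ∧ y i' * z i - y i * z i' ≠ 0) ∧
  (∀ I : Finset (Fin n), j < I.card → ∃ z : Fin n → K, (∀ x, x ∉ I → z x = 0) ∧
    (∀ l : Fin m, l.1 < j → ∑ x, z x * R l x = 0) ∧ ∃ k ∈ I, z k ≠ 0)

/-! ### The exceptional events -/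

/-- rank condition at the generic points -/
def GR {n ℓ m : ℕ} (C : Finset (Fin n)) (r : Fin m → Fin ℓ → Lt n) (j : ℕ) (i i' : Fin n) : Prop :=
  ∀ (K : Type) [Field K] (θ : Fin n → Kˣ),
    (∀ l, mon θ (Multiplicative.ofAdd (pos (r l) ℓ)) = 1) → Gen0 C θ →
    Ind r θ j (Finset.univ \ {i, i'})

/-- the rank condition at the generic points fails first for the row `j` -/
def BadG {n ℓ m : ℕ} (S0 : ℕ) (C : Finset (Fin n)) (j : Fin m) (i i' : Fin n)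
    (r : Fin m → Fin ℓ → Lt n) : Prop :=
  IsC (fun l => pos (r l) ℓ) C ∧
  LinearIndependent ℤ (Sum.elim (fun l => pos (r l) ℓ)
    (fun _ : Unit => (Pi.single i 1 : Fin n → ℤ))) ∧
  (∀ k k' : Fin n, k ≠ k' → Spr S0 k k' (r j)) ∧ GR C r j.1 i i' ∧ ¬ GR C r (j.1 + 1) i i'

def TaskBG : Prop := ∀ (n ℓ m S0 : ℕ) (C : Finset (Fin n)) (j : Fin m) (i i' : Fin n),
  m + 2 ≤ n → i ≠ i' →
  Nat.card {r : Fin m → RW n ℓ // BadG S0 C j i i' (fun l => (r l).1)} * 2 ^ S0 ≤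
    n * EE n ℓ ^ n * Nat.card (Fin m → RW n ℓ)

/-- the rank condition in height one fails first for the row `j` -/
def BadH {n ℓ m : ℕ} (S0 : ℕ) (C : Finset (Fin n)) (j : Fin m) (i i' : Fin n)
    (r : Fin m → Fin ℓ → Lt n) : Prop :=
  IsC (fun l => pos (r l) ℓ) C ∧
  (∀ k k' : Fin n, k ≠ k' → Spr S0 k k' (r j)) ∧ GR C r (j.1 + 1) i i' ∧
  ∃ (K : Type) (_ : Field K) (θ : Fin n → Kˣ),
    (∀ l, mon θ (Multiplicative.ofAdd (pos (r l) ℓ)) = 1) ∧ Hgt1 C θ ∧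
    Ind r θ j.1 Finset.univ ∧
    (∃ z : Fin n → K, (∀ l : Fin m, l.1 < j.1 → ∑ x, z x * evl θ (fox (r l) x) = 0) ∧
      ((θ i' : K) - 1) * z i - ((θ i : K) - 1) * z i' ≠ 0) ∧
    ¬ Ind r θ (j.1 + 1) Finset.univ

def TaskBH : Prop := ∀ n : ℕ, ∃ D : ℕ, ∀ (ℓ m S0 : ℕ) (C : Finset (Fin n)) (j : Fin m)
  (i i' : Fin n), m + 2 ≤ n → i ≠ i' →
  Nat.card {r : Fin m → RW n ℓ // BadH S0 C j i i' (fun l => (r l).1)} * 2 ^ S0 ≤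
    EE n ℓ ^ D * Nat.card (Fin m → RW n ℓ)

/-- most tuples of words satisfy the rank condition -/
def TaskPROB : Prop := ∀ m n : ℕ, m + 2 ≤ n →
  Tendsto (fun ℓ : ℕ => (Nat.card {r : Fin m → RW n ℓ //
    ∃ C, IsC (fun l => abv (wd (r l).1)) C ∧ RankOK (fun l => wd (r l).1) C} : ℝ) /
    Nat.card (Fin m → RW n ℓ)) atTop (𝓝 1)

/-! ### Algebra -/

/-- saturation of the row space -/
def TaskTFALG : Prop := ∀ (n m : ℕ) (v : Fin m → Fin n → ℤ) (C : Finset (Fin n))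
  (R : Fin m → Fin n → Lam n), IsC v C →
  (∀ (K : Type) [Field K] (θ : Fin n → Kˣ), (∀ j, mon θ (Multiplicative.ofAdd (v j)) = 1) →
    Hgt1 C θ → LinearIndependent K (fun j => fun l => evl θ (R j l))) →
  ∀ (N : ℕ) (u : Fin N → Fin n → ℤ) (c : Fin N → ℤ), (∀ s l, l ∉ C → u s l = 0) →
    Function.Injective u → (∃ s, c s ≠ 0) →
  ∀ (x : Fin n → Lam n) (α : Fin m → Lam n),
    (∀ l, (∑ s, c s • X (u s)) * x l - ∑ j, α j * R j l ∈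
      Ideal.span (Set.range fun j => X (v j) - 1)) →
    ∃ β : Fin m → Lam n, ∀ l, x l - ∑ j, β j * R j l ∈
      Ideal.span (Set.range fun j => X (v j) - 1)

/-- the commutator subgroup is torsion-free over the Laurent polynomials in the variables `C` -/
def TaskTF : Prop := ∀ (n m : ℕ) (r : Fin m → FG n) (C : Finset (Fin n)),
  IsC (fun j => abv (r j)) C → RankOK r C →
  ∀ (N : ℕ) (g : Fin N → FG n) (c : Fin N → ℤ) (a : FG n), a ∈ derivedSeries (FG n) 1 →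
    (∀ s l, l ∉ C → abv (g s) l = 0) → (∀ s s', s ≠ s' → abv (g s) ≠ abv (g s')) →
    (∃ s, c s ≠ 0) → (List.ofFn (fun s => g s * a ^ c s * (g s)⁻¹)).prod ∈ relN r →
    a ∈ relN r

def TaskNONAB : Prop := ∀ (n m : ℕ) (r : Fin m → FG n), m + 2 ≤ n →
  LinearIndependent ℤ (fun j => abv (r j)) → ∃ a b : MG r, a * b ≠ b * a

def TaskGRP : Prop := ∀ (n m : ℕ) (r : Fin m → FG n) (C : Finset (Fin n)), m + 2 ≤ n →
  IsC (fun j => abv (r j)) C → RankOK r C →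
  ∃ (G0 : Subgroup (MG r)) (k k' : ℕ) (π : G0 →* Zm k), commutator (MG r) ≤ G0 ∧
    G0.FiniteIndex ∧ 0 < k ∧ Function.Surjective π ∧ Nonempty (MD π k') ∧
    ∃ a, π a = 1 ∧ a ≠ 1

/-! ### Definability -/

def TaskFI : Prop := ∀ (G : Type) [Group G], Group.FG G → derivedSeries G 2 = ⊥ →
  ∀ H : Subgroup G, commutator G ≤ H → H.FiniteIndex →
    ∃ (p : ℕ) (y : Fin p → G), Df y (fun v => v 0 ∈ H)

def TaskRICHFI : Prop := ∀ (G : Type) [Group G] (H : Subgroup G) (p : ℕ) (y : Fin p → G),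
  Df y (fun v => v 0 ∈ H) → H.FiniteIndex → ∀ (n : ℕ) (x : Fin n → H),
  Subgroup.closure (Set.range x) = ⊤ → Rich x →
  (∀ (N : ℕ) (X : Fin N → G), Subgroup.closure (Set.range X) = ⊤ → ArithWP X) →
  Bi.BiInterpNat G

def TaskCRIT : Prop := ∀ (n m : ℕ) (r : Fin m → FG n) (C : Finset (Fin n)), m + 2 ≤ n →
  IsC (fun j => abv (r j)) C → RankOK r C → Bi.BiInterpNat (MG r)

end Pool.Agent.H577R3.RM
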