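import Pool.Agent.H577R3.RM.Stmts

/-! TASK CCb (helper568): the norm. -/

set_option autoImplicit false

namespace Pool.Agent.H577R3.RM.CCbX

open Pool.Agent.Helper777.Prof Pool.Agent.H577R3 Pool.Agent.H577R3.RM

/-! ### sizes of polynomials -/

/-- `P` is a combination of monomials of degree `≤ d` with sum of absolute values of the coefficients `≤ k`. -/
def Nm {σ : Type} (k : ℤ) (d : ℕ) (P : MvPolynomial σ ℤ) : Prop :=
  ∃ (ι : Type) (_ : Fintype ι) (c : ι → ℤ) (u : ι → σ →₀ ℕ),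
    P = ∑ i, MvPolynomial.monomial (u i) (c i) ∧ ∑ i, |c i| ≤ k ∧ ∀ i, (u i).degree ≤ d

lemma Nm.mono {σ : Type} {k k' : ℤ} {d d' : ℕ} {P : MvPolynomial σ ℤ} (h : Nm k d P) (hk : k ≤ k')
    (hd : d ≤ d') : Nm k' d' P := by
  obtain ⟨ι, hι, c, u, h1, h2, h3⟩ := h
  exact ⟨ι, hι, c, u, h1, h2.trans hk, fun i => (h3 i).trans hd⟩

lemma Nm.zero {σ : Type} (d : ℕ) : Nm 0 d (0 : MvPolynomial σ ℤ) :=
  ⟨Empty, inferInstance, fun _ => 0, fun _ => 0, by simp, by simp, fun i => i.elim⟩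

lemma Nm.one {σ : Type} : Nm 1 0 (1 : MvPolynomial σ ℤ) :=
  ⟨Unit, inferInstance, fun _ => 1, fun _ => 0, by simp, by simp, fun i => by simp⟩

lemma Nm.monomial {σ : Type} (u : σ →₀ ℕ) (c : ℤ) : Nm |c| u.degree (MvPolynomial.monomial u c) :=
  ⟨Unit, inferInstance, fun _ => c, fun _ => u, by simp, by simp, fun i => le_rfl⟩

lemma Nm.add {σ : Type} {k k' : ℤ} {d : ℕ} {P P' : MvPolynomial σ ℤ} (h : Nm k d P) (h' : Nm k' d P') :
    Nm (k + k') d (P + P') := by
  obtain ⟨ι, hι, c, u, h1, h2, h3⟩ := h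
  obtain ⟨ι', hι', c', u', h1', h2', h3'⟩ := h'
  refine ⟨ι ⊕ ι', inferInstance, Sum.elim c c', Sum.elim u u', ?_, ?_, ?_⟩
  · rw [Fintype.sum_sum_type, h1, h1']; rfl
  · rw [Fintype.sum_sum_type]
    simp only [Sum.elim_inl, Sum.elim_inr]
    linarith
  · rintro (i | i)
    · exact h3 i
    · exact h3' i

lemma Nm.mul {σ : Type} {k k' : ℤ} {d d' : ℕ} {P P' : MvPolynomial σ ℤ} (h : Nm k d P) (h' : Nm k' d' P') :
    Nm (k * k') (d + d') (P * P') := by
  obtain ⟨ι, hι, c, u, h1, h2, h3⟩ := h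
  obtain ⟨ι', hι', c', u', h1', h2', h3'⟩ := h'
  refine ⟨ι × ι', inferInstance, fun i => c i.1 * c' i.2, fun i => u i.1 + u' i.2, ?_, ?_, ?_⟩
  · rw [h1, h1', Finset.sum_mul_sum, Fintype.sum_prod_type]
    apply Finset.sum_congr rfl
    intro i _
    apply Finset.sum_congr rfl
    intro j _
    rw [MvPolynomial.monomial_mul]
  · simp only [abs_mul]
    rw [Fintype.sum_prod_type]
    simp only
    rw [← Finset.sum_mul_sum]
    have h0 : 0 ≤ ∑ i, |c i| := Finset.sum_nonneg (fun _ _ => abs_nonneg _)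
    have h0' : 0 ≤ ∑ i, |c' i| := Finset.sum_nonneg (fun _ _ => abs_nonneg _)
    exact mul_le_mul h2 h2' h0' (h0.trans h2)
  · intro i
    rw [map_add]
    exact add_le_add (h3 i.1) (h3' i.2)

lemma Nm.neg {σ : Type} {k : ℤ} {d : ℕ} {P : MvPolynomial σ ℤ} (h : Nm k d P) : Nm k d (-P) := by
  obtain ⟨ι, hι, c, u, h1, h2, h3⟩ := h
  refine ⟨ι, hι, fun i => - c i, u, ?_, by simpa using h2, h3⟩
  rw [h1, ← Finset.sum_neg_distrib]
  apply Finset.sum_congr rfl
  intro i _
  rw [map_neg]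

lemma Nm.sum {σ α : Type} {k : ℤ} {d : ℕ} {P : α → MvPolynomial σ ℤ} (s : Finset α)
    (h : ∀ i ∈ s, Nm k d (P i)) : Nm (s.card * k) d (∑ i ∈ s, P i) := by
  classical
  induction s using Finset.induction_on with
  | empty => simpa using Nm.zero d
  | insert a s ha ih =>
    rw [Finset.sum_insert ha, Finset.card_insert_of_notMem ha]
    have h1 := h a (Finset.mem_insert_self a s)
    have h2 := ih (fun i hi => h i (Finset.mem_insert_of_mem hi))
    refine (h1.add h2).mono (le_of_eq ?_) le_rfl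
    push_cast; ring

lemma Nm.prod {σ α : Type} {k : ℤ} {d : ℕ} {P : α → MvPolynomial σ ℤ} (s : Finset α)
    (h : ∀ i ∈ s, Nm k d (P i)) : Nm (k ^ s.card) (s.card * d) (∏ i ∈ s, P i) := by
  classical
  induction s using Finset.induction_on with
  | empty => simpa using Nm.one
  | insert a s ha ih =>
    rw [Finset.prod_insert ha, Finset.card_insert_of_notMem ha]
    have h1 := h a (Finset.mem_insert_self a s)
    have h2 := ih (fun i hi => h i (Finset.mem_insert_of_mem hi))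
    refine (h1.mul h2).mono (le_of_eq ?_) (le_of_eq ?_)
    · rw [pow_succ]; ring
    · ring

lemma Nm.coeff {σ : Type} {k : ℤ} {d : ℕ} {P : MvPolynomial σ ℤ} (h : Nm k d P) (v : σ →₀ ℕ) :
    |P.coeff v| ≤ k := by
  classical
  obtain ⟨ι, hι, c, u, h1, h2, h3⟩ := h
  rw [h1, MvPolynomial.coeff_sum]
  refine le_trans (Finset.abs_sum_le_sum_abs _ _) (le_trans ?_ h2)
  apply Finset.sum_le_sum
  intro i _
  rw [MvPolynomial.coeff_monomial]
  split_ifs
  · exact le_rfl
  · simp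

lemma Nm.deg {σ : Type} {k : ℤ} {d : ℕ} {P : MvPolynomial σ ℤ} (h : Nm k d P) : P.totalDegree ≤ d := by
  obtain ⟨ι, hι, c, u, h1, h2, h3⟩ := h
  rw [h1]
  apply MvPolynomial.totalDegree_finsetSum_le
  intro i _
  refine (MvPolynomial.totalDegree_monomial_le _ _).trans ?_
  exact h3 i

lemma Nm.det {σ : Type} {B : Type} [Fintype B] [DecidableEq B] {k : ℤ} {d : ℕ}
    (M : Matrix B B (MvPolynomial σ ℤ)) (h : ∀ i j, Nm k d (M i j)) :
    Nm ((Fintype.card B).factorial * k ^ (Fintype.card B)) (Fintype.card B * d) M.det := by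
  rw [Matrix.det_apply]
  have := Nm.sum (σ := σ) (α := Equiv.Perm B) (k := k ^ (Fintype.card B)) (d := Fintype.card B * d)
    (P := fun s => Equiv.Perm.sign s • ∏ i, M (s i) i) Finset.univ (by
      intro s _
      have h1 : Nm (k ^ (Fintype.card B)) (Fintype.card B * d) (∏ i, M (s i) i) :=
        Nm.prod (σ := σ) (P := fun i => M (s i) i) Finset.univ (fun i _ => h (s i) i)
      rcases Int.units_eq_one_or (Equiv.Perm.sign s) with h2 | h2
      · rw [h2, one_smul]; exact h1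
      · rw [h2]
        have : ((-1 : ℤˣ)) • ∏ i, M (s i) i = -∏ i, M (s i) i := by simp
        rw [this]; exact h1.neg)
  rw [Finset.card_univ, Fintype.card_perm] at this
  exact this


/-! ### the matrix -/

section matrix

variable {n : ℕ} (C : Finset (Fin n)) (q : ℕ) (w : Fin n → Fin n → ℤ)

/-- the index set of the basis -/
abbrev Bx := {i : Fin n // i ∉ C} → Fin q

/-- carries -/
def fl (u : Fin n → ℤ) (e : Bx C q) (i : {i : Fin n // i ∉ C}) : ℤ := (u i.1 + ((e i).1 : ℤ)) / (q : ℤ)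

/-- residues -/
def nx (hq : 1 ≤ q) (u : Fin n → ℤ) (e : Bx C q) : Bx C q := fun i =>
  ⟨((u i.1 + ((e i).1 : ℤ)) % (q : ℤ)).toNat, by
    have h0 : (0:ℤ) < q := by exact_mod_cast hq
    have h1 := Int.emod_nonneg (u i.1 + ((e i).1 : ℤ)) (ne_of_gt h0)
    have h2 := Int.emod_lt_of_pos (u i.1 + ((e i).1 : ℤ)) h0
    omega⟩

/-- exponents -/
def ex (S : ℕ) (u : Fin n → ℤ) (e : Bx C q) (c : {c : Fin n // c ∈ C}) : ℕ :=
  (u c.1 + ∑ i, w i.1 c.1 * fl C q u e i + S).toNat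

/-- the matrix of the multiplication -/
noncomputable def MM (hq : 1 ≤ q) (S : ℕ) {N : ℕ} (u : Fin N → Fin n → ℤ) (c : Fin N → ℤ) :
    Matrix (Bx C q) (Bx C q) (MvPolynomial {c : Fin n // c ∈ C} ℤ) := fun e' e =>
  ∑ s, if nx C q hq (u s) e = e' then
    MvPolynomial.monomial (Finsupp.equivFunOnFinite.symm (ex C q w S (u s) e)) (c s) else 0

lemma zpow_sum' {G : Type} [CommGroup G] {α : Type} (s : Finset α) (g : G) (f : α → ℤ) :
    g ^ (∑ i ∈ s, f i) = ∏ i ∈ s, g ^ f i := by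
  classical
  induction s using Finset.induction_on with
  | empty => simp
  | insert a s ha ih => rw [Finset.sum_insert ha, Finset.prod_insert ha, zpow_add, ih]

variable {C q w}

theorem acA {M : Type} [CommMonoid M] (a b c d : M) : a * b * c * d = c * a * (b * d) := by
  rw [mul_comm (a * b) c, ← mul_assoc c a b, mul_assoc (c * a) b d]

lemma key {K : Type} [Field K] {θ : Fin n → Kˣ} (hθ : Rad C q w θ) (hq : 1 ≤ q) (S : ℕ) (u : Fin n → ℤ)
    (e : Bx C q) (hS : ∀ c : {c : Fin n // c ∈ C}, 0 ≤ u c.1 + ∑ i, w i.1 c.1 * fl C q u e i + S) :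
    (∏ c : {c : Fin n // c ∈ C}, θ c.1 ^ (ex C q w S u e c)) *
      ∏ i : {i : Fin n // i ∉ C}, θ i.1 ^ (nx C q hq u e i).1 =
    (∏ c : {c : Fin n // c ∈ C}, θ c.1) ^ S * mon θ (Multiplicative.ofAdd u) *
      ∏ i : {i : Fin n // i ∉ C}, θ i.1 ^ (e i).1 := by
  have h0 : (0:ℤ) < q := by exact_mod_cast hq
  have h1 : ∀ c : {c : Fin n // c ∈ C}, θ c.1 ^ (ex C q w S u e c) =
      θ c.1 ^ (u c.1) * (∏ i, (θ c.1 ^ w i.1 c.1) ^ fl C q u e i) * θ c.1 ^ S := by
    intro c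
    rw [← zpow_natCast, ex, Int.toNat_of_nonneg (hS c), zpow_add, zpow_add, zpow_natCast, zpow_sum']
    simp only [zpow_mul]
  have h2 : mon θ (Multiplicative.ofAdd u) = (∏ c : {c : Fin n // c ∈ C}, θ c.1 ^ u c.1) *
      ∏ i : {i : Fin n // i ∉ C}, θ i.1 ^ u i.1 := by
    have : mon θ (Multiplicative.ofAdd u) = ∏ l, θ l ^ u l := rfl
    rw [this]
    have e1 : ∏ l ∈ C, θ l ^ u l = ∏ c : {c : Fin n // c ∈ C}, θ c.1 ^ u c.1 :=
      Finset.prod_subtype C (fun _ => Iff.rfl) (fun l => θ l ^ u l)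
    have e2 : ∏ l ∈ Cᶜ, θ l ^ u l = ∏ i : {i : Fin n // i ∉ C}, θ i.1 ^ u i.1 :=
      Finset.prod_subtype Cᶜ (fun _ => Finset.mem_compl) (fun l => θ l ^ u l)
    rw [← e1, ← e2, Finset.prod_mul_prod_compl]
  have h3 : (∏ i : {i : Fin n // i ∉ C}, (θ i.1 ^ q) ^ fl C q u e i) *
      ∏ i : {i : Fin n // i ∉ C}, θ i.1 ^ (nx C q hq u e i).1 =
      (∏ i : {i : Fin n // i ∉ C}, θ i.1 ^ u i.1) * ∏ i : {i : Fin n // i ∉ C}, θ i.1 ^ (e i).1 := by
    rw [← Finset.prod_mul_distrib, ← Finset.prod_mul_distrib]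
    apply Finset.prod_congr rfl
    intro i _
    have h4 : (((nx C q hq u e i).1 : ℕ) : ℤ) = (u i.1 + ((e i).1 : ℤ)) % (q : ℤ) := by
      unfold nx
      exact Int.toNat_of_nonneg (Int.emod_nonneg _ (ne_of_gt h0))
    rw [← zpow_natCast (θ i.1) q, ← zpow_mul, ← zpow_natCast (θ i.1) (nx C q hq u e i).1, ← zpow_add,
      ← zpow_natCast (θ i.1) (e i).1, ← zpow_add, h4]
    congr 1
    exact Int.mul_ediv_add_emod _ _
  have h5 : ∏ c : {c : Fin n // c ∈ C}, θ c.1 ^ (ex C q w S u e c) =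
      (∏ c : {c : Fin n // c ∈ C}, θ c.1 ^ u c.1) *
      (∏ i : {i : Fin n // i ∉ C}, (θ i.1 ^ q) ^ fl C q u e i) * (∏ c : {c : Fin n // c ∈ C}, θ c.1) ^ S := by
    rw [Finset.prod_congr rfl (fun c _ => h1 c), Finset.prod_mul_distrib, Finset.prod_mul_distrib,
      Finset.prod_comm, Finset.prod_pow]
    congr 2
    apply Finset.prod_congr rfl
    intro i _
    rw [Finset.prod_zpow, hθ i.1 i.2]
    congr 1
    exact Finset.prod_coe_sort C (fun c => θ c ^ w i.1 c)
  rw [h5, h2]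
  calc (∏ c : {c : Fin n // c ∈ C}, θ c.1 ^ u c.1) *
      (∏ i : {i : Fin n // i ∉ C}, (θ i.1 ^ q) ^ fl C q u e i) * (∏ c : {c : Fin n // c ∈ C}, θ c.1) ^ S *
      ∏ i : {i : Fin n // i ∉ C}, θ i.1 ^ (nx C q hq u e i).1 =
      (∏ c : {c : Fin n // c ∈ C}, θ c.1) ^ S * (∏ c : {c : Fin n // c ∈ C}, θ c.1 ^ u c.1) *
      ((∏ i : {i : Fin n // i ∉ C}, (θ i.1 ^ q) ^ fl C q u e i) *
      ∏ i : {i : Fin n // i ∉ C}, θ i.1 ^ (nx C q hq u e i).1) := acA _ _ _ _
    _ = _ := by rw [h3]; simp only [mul_comm, mul_left_comm, mul_assoc]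

lemma evC_monomial {K : Type} [Field K] (θ : Fin n → Kˣ) (a : {c : Fin n // c ∈ C} → ℕ) (k : ℤ) :
    evC C θ (MvPolynomial.monomial (Finsupp.equivFunOnFinite.symm a) k) =
      (k : K) * ((∏ c : {c : Fin n // c ∈ C}, θ c.1 ^ a c : Kˣ) : K) := by
  unfold evC
  rw [MvPolynomial.coe_eval₂Hom, MvPolynomial.eval₂_monomial, Finsupp.prod_fintype]
  · simp
  · intro c; simp

lemma evl_sum {K : Type} [Field K] (θ : Fin n → Kˣ) {N : ℕ} (u : Fin N → Fin n → ℤ) (c : Fin N → ℤ) :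
    evl θ (∑ i, c i • X (u i)) = ∑ i, (c i : K) * (mon θ (Multiplicative.ofAdd (u i)) : K) := by
  rw [map_sum]
  apply Finset.sum_congr rfl
  intro i _
  rw [map_zsmul, zsmul_eq_mul]
  congr 1
  unfold evl
  simp

/-- the vector of the monomials -/
noncomputable def vv {K : Type} [Field K] (θ : Fin n → Kˣ) (e : Bx C q) : K :=
  ((∏ i : {i : Fin n // i ∉ C}, θ i.1 ^ (e i).1 : Kˣ) : K)

lemma vecMul_MM {K : Type} [Field K] {θ : Fin n → Kˣ} (hθ : Rad C q w θ) (hq : 1 ≤ q) (S : ℕ) {N : ℕ}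
    (u : Fin N → Fin n → ℤ) (c : Fin N → ℤ)
    (hS : ∀ s e (c : {c : Fin n // c ∈ C}), 0 ≤ u s c.1 + ∑ i, w i.1 c.1 * fl C q (u s) e i + S) :
    Matrix.vecMul (vv θ) ((MM C q w hq S u c).map (evC C θ)) =
      (((∏ c : {c : Fin n // c ∈ C}, θ c.1) ^ S : Kˣ) * evl θ (∑ i, c i • X (u i)) : K) • (vv θ) := by
  classical
  funext e
  rw [evl_sum]
  simp only [Matrix.vecMul, dotProduct, Matrix.map_apply, MM, map_sum, Pi.smul_apply, smul_eq_mul]
  have h1 : ∀ e' : Bx C q, vv θ e' * ∑ s, evC C θ (if nx C q hq (u s) e = e' then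
      MvPolynomial.monomial (Finsupp.equivFunOnFinite.symm (ex C q w S (u s) e)) (c s) else 0) =
      ∑ s, if nx C q hq (u s) e = e' then vv θ e' * ((c s : K) *
        ((∏ c : {c : Fin n // c ∈ C}, θ c.1 ^ ex C q w S (u s) e c : Kˣ) : K)) else 0 := by
    intro e'
    rw [Finset.mul_sum]
    apply Finset.sum_congr rfl
    intro s _
    split_ifs
    · rw [evC_monomial]
    · rw [map_zero, mul_zero]
  rw [Finset.sum_congr rfl (fun e' _ => h1 e'), Finset.sum_comm, Finset.mul_sum, Finset.sum_mul]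
  apply Finset.sum_congr rfl
  intro s _
  rw [Finset.sum_ite_eq]
  simp only [Finset.mem_univ, if_true]
  have h2 := congrArg (fun x : Kˣ => (x : K)) (key hθ hq S (u s) e (hS s e))
  simp only [Units.val_mul] at h2
  unfold vv
  calc _ = (c s : K) * (((∏ c : {c : Fin n // c ∈ C}, θ c.1 ^ ex C q w S (u s) e c : Kˣ) : K) *
        ((∏ i : {i : Fin n // i ∉ C}, θ i.1 ^ (nx C q hq (u s) e i).1 : Kˣ) : K)) := by ring
    _ = _ := by rw [h2]; ring

end matrix


section nonvanishing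

variable {n : ℕ} {C : Finset (Fin n)} {q : ℕ} {w : Fin n → Fin n → ℤ}

lemma det_ne (hq : 1 ≤ q) (S : ℕ) {N : ℕ}
    (u : Fin N → Fin n → ℤ) (c : Fin N → ℤ)
    (hS : ∀ s e (c : {c : Fin n // c ∈ C}), 0 ≤ u s c.1 + ∑ i, w i.1 c.1 * fl C q (u s) e i + S)
    (hyp : ∀ (K : Type) [Field K] (θ : Fin n → Kˣ), Rad C q w θ → Gen0 C θ →
      evl θ (∑ i, c i • X (u i)) ≠ 0) : (MM C q w hq S u c).det ≠ 0 := by
  classical
  intro hdet
  let A := MvPolynomial {c : Fin n // c ∈ C} ℤ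
  let F := FractionRing A
  let K := AlgebraicClosure F
  let φ : A →+* K := (algebraMap F K).comp (algebraMap A F)
  have hφ : Function.Injective φ := (algebraMap F K).injective.comp (IsFractionRing.injective A F)
  have : CharZero K := charZero_of_injective_ringHom hφ
  have hX : ∀ c : {c : Fin n // c ∈ C}, φ (MvPolynomial.X c) ≠ 0 := by
    intro c h
    have h1 : (MvPolynomial.X c : A) = 0 := hφ (by rw [h, map_zero])
    exact MvPolynomial.X_ne_zero c h1
  let xc : {c : Fin n // c ∈ C} → Kˣ := fun c => Units.mk0 (φ (MvPolynomial.X c)) (hX c)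
  have hr : ∀ i : Fin n, ∃ t : Kˣ, t ^ q = ∏ c : {c : Fin n // c ∈ C}, xc c ^ w i c.1 := by
    intro i
    obtain ⟨z, hz⟩ := IsAlgClosed.exists_pow_nat_eq
      (((∏ c : {c : Fin n // c ∈ C}, xc c ^ w i c.1 : Kˣ) : K)) (n := q) (by omega)
    have hz0 : z ≠ 0 := by
      intro h0
      rw [h0, zero_pow (by omega)] at hz
      exact Units.ne_zero _ hz.symm
    refine ⟨Units.mk0 z hz0, Units.ext ?_⟩
    rw [Units.val_pow_eq_pow_val, Units.val_mk0]
    exact hz
  choose t ht using hr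
  have : NeZero (q : K) := ⟨by
    have : q ≠ 0 := by omega
    exact_mod_cast this⟩
  obtain ⟨ζ, hζ⟩ : ∃ ζ : K, IsPrimitiveRoot ζ q := by
    obtain ⟨z, hz⟩ := IsAlgClosed.exists_root (Polynomial.cyclotomic q K)
      (Polynomial.degree_cyclotomic_pos q K (by omega)).ne'
    exact ⟨z, Polynomial.isRoot_cyclotomic_iff.1 hz⟩
  have hζ0 : ζ ≠ 0 := hζ.ne_zero (by omega)
  let Z : Kˣ := Units.mk0 ζ hζ0
  have hZ : Z ^ q = 1 := Units.ext (by simpa [Z] using hζ.pow_eq_one)
  let th : Bx C q → Fin n → Kˣ := fun k l =>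
    if h : l ∈ C then xc ⟨l, h⟩ else Z ^ (k ⟨l, h⟩).1 * t l
  have hth1 : ∀ k (c : {c : Fin n // c ∈ C}), th k c.1 = xc c := by
    intro k c
    simp only [th, dif_pos c.2]
  have hth2 : ∀ k (i : {i : Fin n // i ∉ C}), th k i.1 = Z ^ (k i).1 * t i.1 := by
    intro k i
    simp only [th, dif_neg i.2]
  have hrad : ∀ k, Rad C q w (th k) := by
    intro k i hi
    rw [hth2 k ⟨i, hi⟩, mul_pow, ← pow_mul, mul_comm (k ⟨i, hi⟩).1 q, pow_mul, hZ, one_pow, one_mul, ht]
    rw [← Finset.prod_coe_sort C (fun c => th k c ^ w i c)]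
    apply Finset.prod_congr rfl
    intro c _
    rw [hth1]
  have hev : ∀ k, evC C (th k) = φ := by
    intro k
    apply MvPolynomial.ringHom_ext
    · intro r
      exact DFunLike.congr_fun (RingHom.ext_int ((evC C (th k)).comp MvPolynomial.C) (φ.comp MvPolynomial.C)) r
    · intro c
      unfold evC
      rw [MvPolynomial.coe_eval₂Hom, MvPolynomial.eval₂_X, hth1]
      rfl
  have hgen : ∀ k, Gen0 C (th k) := by
    intro k
    unfold Gen0
    rw [hev k]
    exact (RingHom.injective_iff_ker_eq_bot φ).1 hφ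
  have hdet2 : ((MM C q w hq S u c).map φ).det = 0 := by
    have := RingHom.map_det φ (MM C q w hq S u c)
    rw [hdet, map_zero] at this
    exact this.symm
  obtain ⟨b, hb0, hb⟩ := Matrix.exists_mulVec_eq_zero_iff.2 hdet2
  have horth : ∀ k, dotProduct (vv (th k)) b = 0 := by
    intro k
    have h1 := vecMul_MM (hrad k) hq S u c hS
    rw [hev k] at h1
    have h2 := Matrix.dotProduct_mulVec (vv (th k)) ((MM C q w hq S u c).map φ) b
    rw [hb, dotProduct_zero, h1, smul_dotProduct, smul_eq_mul] at h2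
    rcases mul_eq_zero.1 h2.symm with h3 | h3
    · rcases mul_eq_zero.1 h3 with h4 | h4
      · exact absurd h4 (Units.ne_zero _)
      · exact absurd h4 (hyp K (th k) (hrad k) (hgen k))
    · exact h3
  let mo : Bx C q → ({i : Fin n // i ∉ C} →₀ ℕ) := fun e => Finsupp.equivFunOnFinite.symm (fun i => (e i).1)
  have hmo : Function.Injective mo := by
    intro e e' h
    funext i
    have := DFunLike.congr_fun h i
    simp only [mo, Finsupp.equivFunOnFinite_symm_apply_apply] at this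
    exact Fin.ext this
  let G : MvPolynomial {i : Fin n // i ∉ C} K := ∑ e, MvPolynomial.monomial (mo e) (b e)
  have hcoef : ∀ m, G.coeff m = ∑ e, if mo e = m then b e else 0 := by
    intro m
    simp only [G, MvPolynomial.coeff_sum, MvPolynomial.coeff_monomial]
  have hG : G = 0 := by
    apply MvPolynomial.eq_zero_of_eval_zero_at_prod_finset G
      (fun i => Finset.univ.image (fun k : Fin q => ζ ^ k.1 * (t i.1 : K)))
    · intro i
      have hcard : (Finset.univ.image (fun k : Fin q => ζ ^ k.1 * (t i.1 : K))).card = q := by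
        rw [Finset.card_image_of_injective, Finset.card_univ, Fintype.card_fin]
        intro k l h
        have h1 : ζ ^ k.1 = ζ ^ l.1 := mul_right_cancel₀ (Units.ne_zero _) h
        exact Fin.ext (hζ.pow_inj k.2 l.2 h1)
      rw [hcard, MvPolynomial.degreeOf_lt_iff (by omega)]
      intro m hm
      rw [MvPolynomial.mem_support_iff, hcoef] at hm
      obtain ⟨e, _, he⟩ := Finset.exists_ne_zero_of_sum_ne_zero hm
      have he2 : mo e = m := by
        by_contra h
        rw [if_neg h] at he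
        exact he rfl
      rw [← he2]
      simp only [mo, Finsupp.equivFunOnFinite_symm_apply_apply]
      exact (e i).2
    · intro x hx
      have h1 : ∀ i, ∃ k : Fin q, ζ ^ k.1 * (t i.1 : K) = x i := by
        intro i
        have := hx i
        rw [Finset.mem_image] at this
        obtain ⟨k, _, hk⟩ := this
        exact ⟨k, hk⟩
      choose k hk using h1
      rw [← horth k]
      simp only [G, map_sum, dotProduct]
      apply Finset.sum_congr rfl
      intro e _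
      rw [MvPolynomial.eval_monomial, mul_comm, Finsupp.prod_fintype _ _ (fun i => by simp)]
      congr 1
      unfold vv
      rw [Units.coe_prod]
      apply Finset.prod_congr rfl
      intro i _
      rw [← hk i, Units.val_pow_eq_pow_val, hth2]
      simp [mo, Z]
  apply hb0
  funext e
  have h1 := hcoef (mo e)
  rw [hG, MvPolynomial.coeff_zero] at h1
  rw [Finset.sum_eq_single e] at h1
  · rw [if_pos rfl] at h1; exact h1.symm
  · intro e' _ hne
    rw [if_neg (fun h => hne (hmo h))]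
  · intro h; exact absurd (Finset.mem_univ e) h

end nonvanishing


lemma fl_bound {n : ℕ} {C : Finset (Fin n)} {q E : ℕ} (hq : 1 ≤ q) (hqE : q ≤ E) (u : Fin n → ℤ)
    (hu : ∀ l, |u l| ≤ (E : ℤ)) (e : Bx C q) (i : {i : Fin n // i ∉ C}) :
    |fl C q u e i| ≤ 2 * (E : ℤ) := by
  unfold fl
  have h0 : (0:ℤ) < q := by exact_mod_cast hq
  have h1 := abs_le.1 (hu i.1)
  have h2 : (0:ℤ) ≤ ((e i).1 : ℤ) := by positivity
  have h3 : ((e i).1 : ℤ) < q := by exact_mod_cast (e i).2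
  have h4 : (q : ℤ) ≤ E := by exact_mod_cast hqE
  have hE : (0:ℤ) ≤ E := by positivity
  rw [abs_le]
  constructor
  · rw [Int.le_ediv_iff_mul_le h0]
    nlinarith
  · have : (u i.1 + ((e i).1 : ℤ)) / (q : ℤ) < 2 * E + 1 := by
      rw [Int.ediv_lt_iff_lt_mul h0]
      nlinarith
    linarith

lemma ex_bound {n : ℕ} {C : Finset (Fin n)} {q E : ℕ} (hq : 1 ≤ q) (hqE : q ≤ E) (w : Fin n → Fin n → ℤ)
    (hw : ∀ i c, |w i c| ≤ (E : ℤ)) (u : Fin n → ℤ) (hu : ∀ l, |u l| ≤ (E : ℤ)) (e : Bx C q)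
    (c : {c : Fin n // c ∈ C}) :
    |u c.1 + ∑ i, w i.1 c.1 * fl C q u e i| ≤ ((E + n * (E * (2 * E)) : ℕ) : ℤ) := by
  have h1 : |∑ i : {i : Fin n // i ∉ C}, w i.1 c.1 * fl C q u e i| ≤ n * (E * (2 * E)) := by
    refine (Finset.abs_sum_le_sum_abs _ _).trans ?_
    have h2 : ∀ i ∈ (Finset.univ : Finset {i : Fin n // i ∉ C}), |w i.1 c.1 * fl C q u e i| ≤ (E : ℤ) * (2 * E) := by
      intro i _
      rw [abs_mul]
      exact mul_le_mul (hw _ _) (fl_bound hq hqE u hu e i) (abs_nonneg _) (by positivity)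
    refine (Finset.sum_le_card_nsmul _ _ _ h2).trans ?_
    rw [nsmul_eq_mul, Finset.card_univ]
    have h3 : Fintype.card {i : Fin n // i ∉ C} ≤ n := by
      have := Fintype.card_subtype_le (fun i : Fin n => i ∉ C)
      rwa [Fintype.card_fin] at this
    have h4 : ((Fintype.card {i : Fin n // i ∉ C} : ℕ) : ℤ) ≤ n := by exact_mod_cast h3
    exact mul_le_mul_of_nonneg_right h4 (by positivity)
  have h5 := abs_add_le (u c.1) (∑ i : {i : Fin n // i ∉ C}, w i.1 c.1 * fl C q u e i)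
  have h6 := hu c.1
  push_cast
  linarith

lemma entry_bound {n : ℕ} {C : Finset (Fin n)} {q E : ℕ} (hq : 1 ≤ q) (hqE : q ≤ E) (w : Fin n → Fin n → ℤ)
    (hw : ∀ i c, |w i c| ≤ (E : ℤ)) {N : ℕ} (hN : N ≤ E) (u : Fin N → Fin n → ℤ) (c : Fin N → ℤ)
    (hu : ∀ i l, |u i l| ≤ (E : ℤ)) (hc : ∀ i, |c i| ≤ (E : ℤ)) (e' e : Bx C q) :
    Nm ((E : ℤ) * E) (n * (2 * (E + n * (E * (2 * E))))) (MM C q w hq (E + n * (E * (2 * E))) u c e' e) := by
  classical
  obtain ⟨S, hS⟩ : ∃ S, S = E + n * (E * (2 * E)) := ⟨_, rfl⟩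
  rw [← hS]
  unfold MM
  have h1 := Nm.sum (σ := {c : Fin n // c ∈ C}) (k := (E : ℤ)) (d := n * (2 * S))
    (P := fun s => if nx C q hq (u s) e = e' then
      MvPolynomial.monomial (Finsupp.equivFunOnFinite.symm (ex C q w S (u s) e)) (c s) else 0)
    (Finset.univ : Finset (Fin N)) (by
      intro s _
      split_ifs
      · refine (Nm.monomial _ _).mono (hc s) ?_
        rw [Finsupp.degree_eq_sum]
        have h2 : ∀ x ∈ (Finset.univ : Finset {c : Fin n // c ∈ C}),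
            (Finsupp.equivFunOnFinite.symm (ex C q w S (u s) e)) x ≤ 2 * S := by
          intro x _
          simp only [Finsupp.equivFunOnFinite_symm_apply_apply]
          unfold ex
          have h3 := abs_le.1 (ex_bound hq hqE w hw (u s) (hu s) e x)
          rw [← hS] at h3
          omega
        refine (Finset.sum_le_card_nsmul _ _ _ h2).trans ?_
        rw [smul_eq_mul, Finset.card_univ]
        have h3 : Fintype.card {c : Fin n // c ∈ C} ≤ n := by
          have := Fintype.card_subtype_le (fun i : Fin n => i ∈ C)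
          rw [Fintype.card_fin] at this
          convert this
        exact Nat.mul_le_mul_right _ h3
      · exact (Nm.zero _).mono (by positivity) le_rfl)
  refine h1.mono ?_ le_rfl
  rw [Finset.card_univ, Fintype.card_fin]
  have : (N : ℤ) ≤ E := by exact_mod_cast hN
  exact mul_le_mul_of_nonneg_right this (by positivity)

lemma num1 (n E B : ℕ) (hE : 2 ≤ E) (hB : B ≤ E ^ n) :
    B * (n * (2 * (E + n * (E * (2 * E))))) ≤ E ^ (3 * n + 4) := by
  have h1 : n + 1 ≤ 2 ^ n := Nat.lt_two_pow_self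
  have h2 : (2:ℕ) ^ n ≤ E ^ n := Nat.pow_le_pow_left hE n
  have h3 : 2 * n ≤ E ^ (n + 1) := by
    calc 2 * n ≤ E * E ^ n := Nat.mul_le_mul hE (by omega)
      _ = E ^ (n + 1) := by rw [pow_succ]; ring
  have h4 : 1 + 2 * n ≤ E ^ (n + 1) := by
    calc 1 + 2 * n ≤ 2 * 2 ^ n := by omega
      _ ≤ E * E ^ n := Nat.mul_le_mul hE h2
      _ = E ^ (n + 1) := by rw [pow_succ]; ring
  calc B * (n * (2 * (E + n * (E * (2 * E))))) ≤ E ^ n * (n * (2 * (E + n * (E * (2 * E))))) :=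
        Nat.mul_le_mul_right _ hB
    _ = E ^ n * ((2 * n) * (E + 2 * n * (E * E))) := by ring
    _ ≤ E ^ n * ((2 * n) * (E * E + 2 * n * (E * E))) := by
        gcongr
        nlinarith
    _ = E ^ n * ((2 * n) * ((1 + 2 * n) * (E * E))) := by ring
    _ ≤ E ^ n * (E ^ (n + 1) * (E ^ (n + 1) * (E * E))) := by gcongr
    _ = E ^ (3 * n + 4) := by ring

lemma num2 (n E B : ℕ) (hE : 2 ≤ E) (hB : B ≤ E ^ n) :
    B.factorial * (E * E) ^ B ≤ 2 ^ (E ^ (3 * n + 4)) := by
  have h1 : n + 2 ≤ E ^ (n + 2) := by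
    calc n + 2 ≤ 2 ^ (n + 2) := (Nat.lt_two_pow_self).le
      _ ≤ E ^ (n + 2) := Nat.pow_le_pow_left hE _
  have hE2 : E ≤ 2 ^ E := (Nat.lt_two_pow_self).le
  calc B.factorial * (E * E) ^ B ≤ B ^ B * (E * E) ^ B := Nat.mul_le_mul_right _ (Nat.factorial_le_pow B)
    _ ≤ (E ^ n) ^ B * (E * E) ^ B := Nat.mul_le_mul_right _ (Nat.pow_le_pow_left hB B)
    _ = E ^ ((n + 2) * B) := by rw [← mul_pow, pow_mul]; congr 1; ring
    _ ≤ (2 ^ E) ^ ((n + 2) * B) := Nat.pow_le_pow_left hE2 _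
    _ = 2 ^ (E * ((n + 2) * B)) := by rw [← pow_mul]
    _ ≤ 2 ^ (E ^ (3 * n + 4)) := by
        apply Nat.pow_le_pow_right (by norm_num)
        calc E * ((n + 2) * B) ≤ E * (E ^ (n + 2) * E ^ n) := by gcongr
          _ = E ^ (2 * n + 3) := by ring
          _ ≤ E ^ (3 * n + 4) := Nat.pow_le_pow_right (by omega) (by omega)

/-- TASK CCb. -/
theorem taskCCb : TaskCCb := by
  classical
  intro n
  refine ⟨3 * n + 4, ?_⟩
  intro C E q w h hE hq hqE hw hSz hyp
  obtain ⟨N, u, c, hN, hc, hu, rfl⟩ := hSz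
  obtain ⟨S, hS⟩ : ∃ S, S = E + n * (E * (2 * E)) := ⟨_, rfl⟩
  have hpos : ∀ s e (c : {c : Fin n // c ∈ C}), 0 ≤ u s c.1 + ∑ i, w i.1 c.1 * fl C q (u s) e i + S := by
    intro s e c
    have h3 := abs_le.1 (ex_bound hq hqE w hw (u s) (hu s) e c)
    rw [← hS] at h3
    linarith
  have hB : Fintype.card (Bx C q) ≤ E ^ n := by
    rw [Fintype.card_fun, Fintype.card_fin]
    have h3 : Fintype.card {i : Fin n // i ∉ C} ≤ n := by
      have := Fintype.card_subtype_le (fun i : Fin n => i ∉ C)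
      rwa [Fintype.card_fin] at this
    exact (Nat.pow_le_pow_right hq h3).trans (Nat.pow_le_pow_left hqE n)
  have hNm := Nm.det (MM C q w hq S u c) (k := (E : ℤ) * E) (d := n * (2 * S)) (by
    intro e' e
    rw [hS]
    exact entry_bound hq hqE w hw hN u c hu hc e' e)
  refine ⟨(MM C q w hq S u c).det, det_ne hq S u c hpos hyp, ?_, ?_, ?_⟩
  · refine hNm.deg.trans ?_
    rw [hS]
    exact num1 n E _ hE hB
  · intro v
    refine (hNm.coeff v).trans ?_
    exact_mod_cast num2 n E _ hE hB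
  · intro K _ θ hθ h0
    rw [RingHom.map_det]
    apply Matrix.exists_vecMul_eq_zero_iff.1
    refine ⟨vv θ, ?_, ?_⟩
    · intro h1
      have h2 := congrFun h1 (fun _ => ⟨0, by omega⟩)
      exact Units.ne_zero _ h2
    · have h1 := vecMul_MM hθ hq S u c hpos
      rw [h0, mul_zero, zero_smul] at h1
      exact h1

end Pool.Agent.H577R3.RM.CCbX
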