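import Mathlib
import Pool.Agent.H577R3.RM.Stmts
import Pool.Agent.H577R3.Rig

set_option autoImplicit false

/-! The criterion for bi-interpretability of metabelian groups given by presentations. -/

namespace Pool.Agent.H577R3.RM

open Pool.Agent.Helper777.Prof Pool.Agent.H577R3 Filter Topology

theorem mg_metab {n m : ℕ} (r : Fin m → FG n) : derivedSeries (MG r) 2 = ⊥ := by
  have h1 := map_derivedSeries_eq (f := QuotientGroup.mk' (relN r))
    (QuotientGroup.mk'_surjective (relN r)) 2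
  rw [← h1, eq_bot_iff, Subgroup.map_le_iff_le_comap]
  intro x hx
  rw [Subgroup.mem_comap, Subgroup.mem_bot, QuotientGroup.mk'_apply, QuotientGroup.eq_one_iff]
  exact Subgroup.mem_sup_right hx

theorem mg_fg {n m : ℕ} (r : Fin m → FG n) : Group.FG (MG r) := by
  have : Group.FG (FG n) := inferInstance
  exact QuotientGroup.fg (relN r)

theorem taskCRIT (h1 : TaskGRP) (h2 : TaskFI) (h3 : TaskRICHFI) : TaskCRIT := by
  intro n m r C hn hC hR
  obtain ⟨G0, k, k', π, hcom, hfi, hk, hπ, ⟨M⟩, hne⟩ := h1 n m r C hn hC hR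
  obtain ⟨p, y, hy⟩ := h2 (MG r) (mg_fg r) (mg_metab r) G0 hcom hfi
  have hfg : Group.FG G0 := by
    have := mg_fg r
    have := hfi
    infer_instance
  obtain ⟨N, x, hx⟩ : ∃ (N : ℕ) (x : Fin N → G0), Subgroup.closure (Set.range x) = ⊤ := by
    obtain ⟨_, S, _, hS⟩ := Group.fg_iff'.1 hfg
    refine ⟨S.card, fun i => (S.equivFin.symm i).1, ?_⟩
    rw [← hS]
    congr 1
    ext g
    constructor
    · rintro ⟨i, rfl⟩
      exact (S.equivFin.symm i).2
    · intro hg
      exact ⟨S.equivFin ⟨g, hg⟩, by simp⟩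
  have hW := rig_wp G0 x hx (rig_metab M)
  exact h3 (MG r) G0 p y hy hfi N x hx (rig_rich M hk hπ hx hne hW)
    (fun N' X hX => rig_wp (MG r) X hX (mg_metab r))

end Pool.Agent.H577R3.RM
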