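import Pool.Agent.H577R3.RM.Fin
import Pool.Agent.H577R3.RM.Crit
import Pool.Agent.H107R3.RM.FOXW
import Pool.Agent.H174R3.RM.CCa
import Pool.Agent.H191R3.RM.GRP
import Pool.Agent.H385R3.RM.BL
import Pool.Agent.H40R3.RM.SZ
import Pool.Agent.H455R3.RM.CT
import Pool.Agent.H501R3.RM.KEYP
import Pool.Agent.H532R3.RM.STEP
import Pool.Agent.H54.RM.CCc
import Pool.Agent.H594R3.RM.CC
import Pool.Agent.H608R3.RM.MIN
import Pool.Agent.H632R3.RM.C0L
import Pool.Agent.H663R3.RM.RAD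
import Pool.Agent.H66R3.RM.LIN
import Pool.Agent.H700R3.RM.BG
import Pool.Agent.H725R3.RM.EXC
import Pool.Agent.H766R3.RM.BH
import Pool.Agent.H782R3.RM.FXB
import Pool.Agent.H783R3.RM.NE1
import Pool.Agent.H787R3.RM.DET
import Pool.Agent.H821R3.RM.FX
import Pool.Agent.H844R3.RM.PROB
import Pool.Agent.H857R3.RM.PAIR
import Pool.Agent.H87R3.RM.TR
import Pool.Agent.H884R3.RM.SPR
import Pool.Agent.H8R3.RM.VAL
import Pool.Agent.H92R3.RM.NONAB
import Pool.Agent.H3R3.RM.WL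
import Pool.Agent.H595R3.RM.TF
import Pool.Agent.H462R5.RICHFI
import Pool.Agent.H577R3.RM.CCb
import Pool.Agent.H227R3.RM.TFALG
import Pool.Agent.H150R3.RM.AC1
import Pool.Agent.H747R3.RM.FI

set_option autoImplicit false

/-! Assembly. -/

namespace Pool.Agent.H577R3.RM

open Filter Topology

theorem stepA : TaskSTEP :=
  Pool.Agent.H532R3.RM.STEP.taskSTEP Pool.Agent.H8R3.RM.taskVAL Pool.Agent.H821R3.RM.FX.taskFX
    (taskFXB Pool.Agent.H821R3.RM.FX.taskFX) taskFOXW taskMIN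

theorem bgA : TaskBG :=
  taskBG stepA taskKEYP Pool.Agent.H821R3.RM.FX.taskFX Pool.Agent.H663R3.RM.taskRAD
    Pool.Agent.H455R3.RM.taskCT Pool.Agent.H783R3.RM.taskNE1 Pool.Agent.H87R3.RM.taskTR
    taskPAIR taskFOXW

theorem ccA : TaskCC :=
  CC.taskCC (taskCCa Pool.Agent.H455R3.RM.taskCT) CCbX.taskCCb
    Pool.Agent.H54.RM.taskCCc

theorem bhA : TaskBH :=
  taskBH stepA taskKEYP Pool.Agent.H821R3.RM.FX.taskFX Pool.Agent.H663R3.RM.taskRAD
    Pool.Agent.H455R3.RM.taskCT ccA Pool.Agent.H40R3.RM.taskSZ taskMIN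
    Pool.Agent.H87R3.RM.taskTR taskFOXW

theorem ac1A : TaskAC1 := Pool.Agent.H150R3.RM.taskAC1 Pool.Agent.H3R3.RM.taskWL

theorem probA : TaskPROB :=
  Pool.Agent.H844R3.RM.PROB.taskPROB (Pool.Agent.H66R3.RM.taskLIN ac1A) taskEXC
    (taskSPR (Pool.Agent.H385R3.RM.taskBL Pool.Agent.H3R3.RM.taskWL ac1A)
      (taskC0L Pool.Agent.H3R3.RM.taskWL) Pool.Agent.H787R3.RM.taskDET) bgA bhA
    Pool.Agent.H87R3.RM.taskTR taskPAIR taskFOXW

theorem critA : TaskCRIT :=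
  taskCRIT (Pool.Agent.H191R3.RM.taskGRP (Pool.Agent.H595R3.RMTF.taskTF taskTFALG)
    Pool.Agent.H92R3.RM.taskNONAB) taskFI Pool.Agent.H462R5.RFI.taskRICHFI

end Pool.Agent.H577R3.RM
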