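import Mathlib
import Pool.Agent.H577R3.RM.Stmts

set_option autoImplicit false

/-! The final limit. -/

namespace Pool.Agent.H577R3.RM

open Pool.Agent.Helper777.Prof Pool.Agent.H577R3 Filter Topology

theorem rw_card_pos {n ℓ : ℕ} (hn : 1 ≤ n) : 0 < Nat.card (RW n ℓ) := by
  have : Nonempty (RW n ℓ) := ⟨⟨fun _ => (⟨0, hn⟩, true), fun _ _ _ _ => rfl⟩⟩
  exact Nat.card_pos

theorem fin_main (h1 : TaskPROB) (h2 : TaskCRIT) (m n : ℕ) (h : m + 2 ≤ n) :
    Tendsto (fun ℓ : ℕ => (Nat.card {r : Fin m → RW n ℓ //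
      Bi.BiInterpNat (MG (fun j => wd (r j).1))} : ℝ) / Nat.card (Fin m → RW n ℓ)) atTop (𝓝 1) := by
  refine tendsto_of_tendsto_of_tendsto_of_le_of_le (h1 m n h) tendsto_const_nhds ?_ ?_
  · intro ℓ
    have h3 : Nat.card {r : Fin m → RW n ℓ //
        ∃ C, IsC (fun l => abv (wd (r l).1)) C ∧ RankOK (fun l => wd (r l).1) C} ≤
        Nat.card {r : Fin m → RW n ℓ // Bi.BiInterpNat (MG (fun j => wd (r j).1))} := by
      refine Nat.card_le_card_of_injective
        (fun r => ⟨r.1, by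
          obtain ⟨C, hC, hR⟩ := r.2
          exact h2 n m _ C h hC hR⟩) ?_
      intro a b hab
      exact Subtype.ext (congrArg (fun z => z.1) hab)
    exact div_le_div_of_nonneg_right (Nat.cast_le.2 h3) (Nat.cast_nonneg _)
  · intro ℓ
    have h3 : Nat.card {r : Fin m → RW n ℓ // Bi.BiInterpNat (MG (fun j => wd (r j).1))} ≤
        Nat.card (Fin m → RW n ℓ) :=
      Nat.card_le_card_of_injective (fun r => r.1) Subtype.val_injective
    have h4 : 0 < Nat.card (Fin m → RW n ℓ) := by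
      have : Nonempty (RW n ℓ) := ⟨⟨fun _ => (⟨0, by omega⟩, true), fun _ _ _ _ => rfl⟩⟩
      exact Nat.card_pos
    rw [div_le_one (Nat.cast_pos.2 h4)]
    exact Nat.cast_le.2 h3

end Pool.Agent.H577R3.RM
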